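import Pool.Agent.H41.FD.Stm

/-! # Project FD (helper41), module B: the convergent case -/

set_option autoImplicit false

namespace Pool.Agent.H66.FD

open MeasureTheory Filter Topology ProbabilityTheory
open Pool.Agent.H41.LD (Past Future RangeDep)

/-- length of the blocks -/
noncomputable def L (d : ℕ → ℕ) (s : ℕ) : ℕ := min (1 + d (2 ^ s)) (2 ^ s)

theorem L_pos (d : ℕ → ℕ) (s : ℕ) : 0 < L d s :=
  lt_min (by omega) (by positivity)

/-- the block of `k` -/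
noncomputable def β (d : ℕ → ℕ) (k : ℕ) : ℕ × ℕ :=
  if k = 0 then (0, 1) else (Nat.log 2 k, (k - 2 ^ Nat.log 2 k) / L d (Nat.log 2 k))

theorem β_ne {d : ℕ → ℕ} (hd : Monotone d) {n k' k : ℕ} (h1 : k' ≤ n) (h2 : n + d n < k) :
    β d k' ≠ β d k := by
  intro h
  have hk0 : k ≠ 0 := by omega
  unfold β at h
  rw [if_neg hk0] at h
  by_cases h0 : k' = 0
  · rw [if_pos h0, Prod.mk.injEq] at h
    obtain ⟨ha, hb⟩ := h
    rw [← ha] at hb
    have h3 : k < 2 ^ (Nat.log 2 k + 1) := Nat.lt_pow_succ_log_self (by norm_num) k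
    rw [← ha] at h3
    have h4 : k = 1 := by
      norm_num at h3
      omega
    rw [h4] at hb
    simp at hb
  · rw [if_neg h0, Prod.mk.injEq] at h
    obtain ⟨ha, hb⟩ := h
    rw [← ha] at hb
    set s := Nat.log 2 k' with hs
    have h5 : 2 ^ s ≤ k' := Nat.pow_log_le_self 2 h0
    have h6 : d (2 ^ s) ≤ d n := hd (h5.trans h1)
    have h7 : L d s ≤ 1 + d (2 ^ s) := min_le_left _ _
    have h8 := L_pos d s
    have h9 := Nat.div_add_mod (k' - 2 ^ s) (L d s)
    have h10 := Nat.div_add_mod (k - 2 ^ s) (L d s)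
    have h11 := Nat.mod_lt (k - 2 ^ s) h8
    rw [hb] at h9
    omega

/-- the measure -/
noncomputable def P : Measure (ℕ × ℕ → ℝ) :=
  Measure.infinitePi fun _ => (volume.restrict (Set.Icc 0 1) : Measure ℝ)

instance : IsProbabilityMeasure (volume.restrict (Set.Icc 0 1) : Measure ℝ) :=
  ⟨by simp⟩

instance : IsProbabilityMeasure P := by
  unfold P
  infer_instance

/-- the basic events -/
def G (p : ℕ × ℕ) (x : ℝ) : Set (ℕ × ℕ → ℝ) := {ω | ω p ≤ x}

theorem meas_G (p : ℕ × ℕ) (x : ℝ) : MeasurableSet (G p x) :=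
  measurableSet_le (measurable_pi_apply p) measurable_const

theorem P_G (p : ℕ × ℕ) {x : ℝ} (h0 : 0 ≤ x) (h1 : x ≤ 1) : P (G p x) = ENNReal.ofReal x := by
  have e1 : G p x = (fun ω : ℕ × ℕ → ℝ => ω p) ⁻¹' Set.Iic x := rfl
  have h2 := (measurePreserving_eval_infinitePi
    (fun _ : ℕ × ℕ => (volume.restrict (Set.Icc 0 1) : Measure ℝ)) p).measure_preimage
    (measurableSet_Iic (a := x)).nullMeasurableSet
  rw [e1]
  refine Eq.trans h2 ?_
  rw [Measure.restrict_apply measurableSet_Iic]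
  have e2 : Set.Iic x ∩ Set.Icc 0 1 = Set.Icc 0 x := by
    ext y
    simp only [Set.mem_inter_iff, Set.mem_Iic, Set.mem_Icc]
    constructor
    · rintro ⟨ha, hb, hc⟩
      exact ⟨hb, ha⟩
    · rintro ⟨ha, hb⟩
      exact ⟨hb, ha, hb.trans h1⟩
  rw [e2, Real.volume_Icc, sub_zero]

/-- the events -/
noncomputable def E (d : ℕ → ℕ) (k : ℕ) : Set (ℕ × ℕ → ℝ) := G (β d k) (1 / ((k : ℝ) + 1))

theorem rangeDep {d : ℕ → ℕ} (hd : Monotone d) : RangeDep P (E d) d := by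
  refine ⟨fun n => meas_G _ _, fun n => ?_⟩
  have hind : iIndepFun (fun (i : ℕ × ℕ) (ω : ℕ × ℕ → ℝ) => ω i) P :=
    iIndepFun_infinitePi (X := fun _ x => x) (fun _ => measurable_id)
  have h1 : iIndep (fun i : ℕ × ℕ => MeasurableSpace.comap (fun ω : ℕ × ℕ → ℝ => ω i)
      inferInstance) P := hind
  have h2 := indep_iSup_of_disjoint (S := β d '' {k | k ≤ n}) (T := β d '' {k | n + d n < k})
    (fun i => (measurable_pi_apply i).comap_le) h1 (by
      rw [Set.disjoint_left]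
      rintro _ ⟨k', hk', rfl⟩ ⟨k, hk, hkk⟩
      exact β_ne hd hk' hk hkk.symm)
  have key : ∀ (S : Set (ℕ × ℕ)) (k : ℕ), β d k ∈ S →
      MeasurableSet[⨆ i ∈ S, MeasurableSpace.comap (fun ω : ℕ × ℕ → ℝ => ω i) inferInstance]
        (E d k) := by
    intro S k hk
    have h3 : MeasurableSpace.comap (fun ω : ℕ × ℕ → ℝ => ω (β d k)) inferInstance ≤
        ⨆ i ∈ S, MeasurableSpace.comap (fun ω : ℕ × ℕ → ℝ => ω i) inferInstance :=
      le_iSup₂_of_le (β d k) hk le_rfl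
    exact h3 _ ⟨Set.Iic (1 / ((k : ℝ) + 1)), measurableSet_Iic, rfl⟩
  refine indep_of_indep_of_le_left (indep_of_indep_of_le_right h2 ?_) ?_
  · refine MeasurableSpace.generateFrom_le ?_
    rintro _ ⟨k, hk, rfl⟩
    exact key _ k ⟨k, hk, rfl⟩
  · refine MeasurableSpace.generateFrom_le ?_
    rintro _ ⟨k, hk, rfl⟩
    exact key _ k ⟨k, hk, rfl⟩

theorem P_E (d : ℕ → ℕ) (k : ℕ) : P.real (E d k) = 1 / ((k : ℝ) + 1) := by
  have h0 : (0 : ℝ) ≤ 1 / ((k : ℝ) + 1) := by positivity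
  have h1 : 1 / ((k : ℝ) + 1) ≤ 1 := by
    rw [div_le_one (by positivity)]
    have : (0 : ℝ) ≤ k := Nat.cast_nonneg k
    linarith
  rw [Measure.real, E, P_G _ h0 h1, ENNReal.toReal_ofReal h0]

/-- the union of a dyadic block -/
noncomputable def F (d : ℕ → ℕ) (s : ℕ) : Set (ℕ × ℕ → ℝ) :=
  ⋃ j ∈ Finset.range (2 ^ s / L d s + 1), G (s, j) ((1 / 2 : ℝ) ^ s)

theorem E_sub (d : ℕ → ℕ) {k : ℕ} (hk : k ≠ 0) : E d k ⊆ F d (Nat.log 2 k) := by
  intro ω hω
  set s := Nat.log 2 k with hs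
  have h5 : 2 ^ s ≤ k := Nat.pow_log_le_self 2 hk
  have h3 : k < 2 ^ (s + 1) := Nat.lt_pow_succ_log_self (by norm_num) k
  have hb : β d k = (s, (k - 2 ^ s) / L d s) := by
    unfold β
    rw [if_neg hk]
  have h6 : ω (s, (k - 2 ^ s) / L d s) ≤ 1 / ((k : ℝ) + 1) := by
    have h7 : ω (β d k) ≤ 1 / ((k : ℝ) + 1) := hω
    rwa [hb] at h7
  refine Set.mem_biUnion (x := (k - 2 ^ s) / L d s) ?_ ?_
  · rw [Finset.mem_coe, Finset.mem_range, Nat.lt_succ_iff]
    apply Nat.div_le_div_right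
    rw [pow_succ] at h3
    omega
  · refine h6.trans ?_
    rw [one_div_pow]
    apply one_div_le_one_div_of_le (by positivity)
    have h8 : ((2 ^ s : ℕ) : ℝ) ≤ k := by exact_mod_cast h5
    push_cast at h8
    linarith

theorem P_F (d : ℕ → ℕ) (s : ℕ) : P (F d s) ≤
    ENNReal.ofReal (1 / (1 + (d (2 ^ s) : ℝ)) + 2 * (1 / 2 : ℝ) ^ s) := by
  have h0 : (0 : ℝ) ≤ (1 / 2 : ℝ) ^ s := by positivity
  have h1 : (1 / 2 : ℝ) ^ s ≤ 1 := pow_le_one₀ (by norm_num) (by norm_num)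
  refine (measure_biUnion_finset_le _ _).trans ?_
  rw [Finset.sum_congr rfl fun j _ => P_G (s, j) h0 h1, Finset.sum_const, Finset.card_range,
    nsmul_eq_mul, ← ENNReal.ofReal_natCast, ← ENNReal.ofReal_mul (by positivity)]
  apply ENNReal.ofReal_le_ofReal
  have hL : (0 : ℝ) < L d s := by exact_mod_cast L_pos d s
  have h2 : ((2 ^ s / L d s : ℕ) : ℝ) ≤ 2 ^ s / (L d s : ℝ) := by
    have := @Nat.cast_div_le ℝ _ _ _ (2 ^ s) (L d s)
    simpa using this
  have h3 : (2 : ℝ) ^ s * (1 / 2 : ℝ) ^ s = 1 := by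
    rw [← mul_pow]
    norm_num
  have h4 : 1 / (L d s : ℝ) ≤ 1 / (1 + (d (2 ^ s) : ℝ)) + (1 / 2 : ℝ) ^ s := by
    rcases min_choice (1 + d (2 ^ s)) (2 ^ s) with h | h
    · have e : (L d s : ℝ) = 1 + (d (2 ^ s) : ℝ) := by
        unfold L
        rw [h]
        push_cast
        ring
      rw [e]
      linarith
    · have e : (L d s : ℝ) = 2 ^ s := by
        unfold L
        rw [h]
        push_cast
        ring
      rw [e, one_div_pow]
      have : (0 : ℝ) ≤ 1 / (1 + (d (2 ^ s) : ℝ)) := by positivity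
      linarith
  push_cast
  calc (((2 ^ s / L d s : ℕ) : ℝ) + 1) * (1 / 2 : ℝ) ^ s
      ≤ (2 ^ s / (L d s : ℝ) + 1) * (1 / 2 : ℝ) ^ s := by gcongr
    _ = ((2 : ℝ) ^ s * (1 / 2 : ℝ) ^ s) * (1 / (L d s : ℝ)) + (1 / 2 : ℝ) ^ s := by ring
    _ = 1 / (L d s : ℝ) + (1 / 2 : ℝ) ^ s := by rw [h3, one_mul]
    _ ≤ _ := by linarith

theorem b : Pool.Agent.H41.FD.S_B := by
  intro d hd hsum
  refine ⟨ℕ × ℕ → ℝ, inferInstance, P, inferInstance, E d, rangeDep hd, P_E d, ?_⟩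
  have h1 : Summable fun s : ℕ => 1 / (1 + (d (2 ^ s) : ℝ)) := by
    have h2 := (summable_condensed_iff_of_nonneg
      (f := fun k : ℕ => 1 / ((k : ℝ) * (1 + d k))) (fun k => by positivity) (by
        intro m n hm hmn
        have hm' : (0 : ℝ) < m := by exact_mod_cast hm
        have hmn' : (m : ℝ) ≤ n := by exact_mod_cast hmn
        have hdd : (d m : ℝ) ≤ d n := by exact_mod_cast hd hmn
        apply one_div_le_one_div_of_le (by positivity)
        gcongr)).2 hsum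
    refine h2.congr fun s => ?_
    push_cast
    have : (0 : ℝ) < 2 ^ s := by positivity
    field_simp
  have h3 : Summable fun s : ℕ => 1 / (1 + (d (2 ^ s) : ℝ)) + 2 * (1 / 2 : ℝ) ^ s :=
    h1.add ((summable_geometric_of_lt_one (by norm_num) (by norm_num)).mul_left 2)
  have h4 : ∑' s, P (F d s) ≠ ⊤ := by
    refine ne_top_of_le_ne_top ?_ (ENNReal.tsum_le_tsum fun s => P_F d s)
    exact h3.tsum_ofReal_ne_top
  filter_upwards [ae_finite_setOf_mem h4] with ω hω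
  refine ((hω.biUnion (t := fun s => (Finset.range (2 ^ (s + 1)) : Set ℕ))
    fun s _ => Finset.finite_toSet _).union (Set.finite_singleton 0)).subset ?_
  intro k hk
  by_cases h0 : k = 0
  · exact Or.inr h0
  · refine Or.inl (Set.mem_biUnion (x := Nat.log 2 k) (E_sub d h0 hk) ?_)
    rw [Finset.mem_coe, Finset.mem_range]
    exact Nat.lt_pow_succ_log_self (by norm_num) k

end Pool.Agent.H66.FD
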